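import Pool.Agent.H65.CZF.TA
import Pool.Agent.H60.CRZ.H2

/-!
# Row H2U: the `L`-functions to the right of `1`, uniformly in the quadratic field
-/

set_option autoImplicit false

open NumberField

namespace Pool.Agent.H1.CZF

open Pool.Agent.H28.RC Pool.Agent.H37.CV Pool.Agent.H33.HH Pool.Agent.H33.HC Pool.Agent.H65.CZF
open Pool.Agent.H60.CRZ (summ_nm one_le_nm two_le_nm norm_psi_le rpow_decay norm_cpow_nm)

section ideals

variable {K : Type} [Field K] [NumberField K]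

/-- a rational prime in a prime ideal -/
theorem exists_pp (P : Ideal (𝓞 K)) (hP : P.IsPrime) (h0 : P ≠ ⊥) :
    ∃ p : ℕ, p.Prime ∧ (p : 𝓞 K) ∈ P ∧ p ≤ Ideal.absNorm P := by
  have h1 : Ideal.absNorm P ≠ 0 := fun h => h0 (Ideal.absNorm_eq_zero_iff.1 h)
  have h2 : ((Ideal.absNorm P : ℕ) : 𝓞 K) ∈ P := Ideal.absNorm_mem P
  have h3 : ∀ l : List ℕ, ((l.prod : ℕ) : 𝓞 K) ∈ P → ∃ p ∈ l, (p : 𝓞 K) ∈ P := by
    intro l
    induction l with
    | nil =>
      intro h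
      rw [List.prod_nil, Nat.cast_one] at h
      exact absurd ((Ideal.eq_top_iff_one P).2 h) hP.ne_top
    | cons a l ih =>
      intro h
      rw [List.prod_cons, Nat.cast_mul] at h
      rcases hP.mem_or_mem h with h | h
      · exact ⟨a, List.mem_cons_self, h⟩
      · obtain ⟨p, hp, h⟩ := ih h
        exact ⟨p, List.mem_cons_of_mem _ hp, h⟩
  obtain ⟨p, hp, hpP⟩ := h3 (Ideal.absNorm P).primeFactorsList (by
    rw [Nat.prod_primeFactorsList h1]
    exact h2)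
  exact ⟨p, Nat.prime_of_mem_primeFactorsList hp, hpP,
    Nat.le_of_dvd (Nat.pos_of_ne_zero h1) (Nat.dvd_of_mem_primeFactorsList hp)⟩

theorem norm_nat (h2 : Module.finrank ℚ K = 2) (p : ℕ) :
    Ideal.absNorm (Ideal.span {(p : 𝓞 K)}) = p ^ 2 := by
  rw [Ideal.absNorm_span_singleton]
  have h1 : (p : 𝓞 K) = algebraMap ℤ (𝓞 K) p := by simp
  rw [h1, Algebra.norm_algebraMap_of_basis (RingOfIntegers.basis K)]
  have h3 : Fintype.card (Module.Free.ChooseBasisIndex ℤ (𝓞 K)) = 2 := by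
    rw [← Module.finrank_eq_card_chooseBasisIndex, RingOfIntegers.rank, h2]
  rw [h3, Int.natAbs_pow, Int.natAbs_natCast]

/-- there are at most two primes above `p` -/
theorem two_primes (h2 : Module.finrank ℚ K = 2) (p : ℕ) (hp : p.Prime)
    (s : Finset (Ideal (𝓞 K))) (hs : ∀ P ∈ s, P.IsPrime ∧ P ≠ ⊥ ∧ (p : 𝓞 K) ∈ P) :
    s.card ≤ 2 := by
  have h1 : ∀ P ∈ s, p ≤ Ideal.absNorm P := by
    intro P hP
    obtain ⟨h3, h4, h5⟩ := hs P hP
    have h6 : Ideal.absNorm P ∣ p ^ 2 := by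
      rw [← norm_nat h2]
      exact Ideal.absNorm_dvd_absNorm_of_le (by
        rw [Ideal.span_singleton_le_iff_mem]
        exact h5)
    obtain ⟨m, -, hm⟩ := (Nat.dvd_prime_pow hp).1 h6
    have hm0 : m ≠ 0 := by
      rintro rfl
      rw [pow_zero, Ideal.absNorm_eq_one_iff] at hm
      exact h3.ne_top hm
    rw [hm]
    exact Nat.le_self_pow hm0 p
  have h3 : ∏ P ∈ s, P ∣ Ideal.span {(p : 𝓞 K)} := by
    apply Finset.prod_primes_dvd
    · intro P hP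
      exact Ideal.prime_of_isPrime (hs P hP).2.1 (hs P hP).1
    · intro P hP
      rw [Ideal.dvd_iff_le, Ideal.span_singleton_le_iff_mem]
      exact (hs P hP).2.2
  have h4 : ∏ P ∈ s, Ideal.absNorm P ∣ p ^ 2 := by
    rw [← norm_nat h2, ← map_prod]
    exact map_dvd Ideal.absNorm h3
  have h5 : p ^ s.card ≤ p ^ 2 := by
    calc p ^ s.card = ∏ P ∈ s, p := by rw [Finset.prod_const]
      _ ≤ ∏ P ∈ s, Ideal.absNorm P := Finset.prod_le_prod' h1
      _ ≤ p ^ 2 := Nat.le_of_dvd (pow_pos hp.pos 2) h4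
  exact (Nat.pow_le_pow_iff_right hp.one_lt).1 h5

theorem exists_two (h2 : Module.finrank ℚ K = 2) (p : ℕ) : ∃ P₀ P₁ : Ideal (𝓞 K),
    p.Prime → ∀ P : Ideal (𝓞 K), P.IsPrime → P ≠ ⊥ → (p : 𝓞 K) ∈ P → P = P₀ ∨ P = P₁ := by
  classical
  by_contra hcon
  push Not at hcon
  obtain ⟨hp, A, hA, hA0, hAp, -, -⟩ := hcon ⊥ ⊥
  obtain ⟨-, B, hB, hB0, hBp, hBA, -⟩ := hcon A A
  obtain ⟨-, C, hC, hC0, hCp, hCA, hCB⟩ := hcon A B
  have h1 := two_primes h2 p hp {A, B, C} (by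
    intro P hP
    rw [Finset.mem_insert, Finset.mem_insert, Finset.mem_singleton] at hP
    rcases hP with rfl | rfl | rfl
    · exact ⟨hA, hA0, hAp⟩
    · exact ⟨hB, hB0, hBp⟩
    · exact ⟨hC, hC0, hCp⟩)
  rw [Finset.card_insert_of_notMem, Finset.card_insert_of_notMem, Finset.card_singleton] at h1
  · omega
  · rw [Finset.mem_singleton]
    exact fun h => hCB h.symm
  · rw [Finset.mem_insert, Finset.mem_singleton]
    rintro (h | h)
    · exact hBA h.symm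
    · exact hCA h.symm

/-- the ideal with the factorization of `a`, where `p` is replaced by `g p` -/
noncomputable def psi (g : ℕ → Ideal (𝓞 K)) (a : ℕ) : Ideal (𝓞 K) :=
  a.factorization.prod fun p e => g p ^ e

theorem psi_mul (g : ℕ → Ideal (𝓞 K)) {p a : ℕ} (hp : p.Prime) (ha : a ≠ 0) :
    psi g (p * a) = g p * psi g a := by
  unfold psi
  have h1 : (Finsupp.single p 1).prod (fun q e => g q ^ e) = g p := by
    have h0 : (Finsupp.single p 1).prod (fun q e => g q ^ e) = g p ^ 1 :=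
      Finsupp.prod_single_index (pow_zero (g p))
    rw [h0, pow_one]
  have h2 : (p.factorization + a.factorization).prod (fun q e => g q ^ e) =
      p.factorization.prod (fun q e => g q ^ e) * a.factorization.prod fun q e => g q ^ e :=
    Finsupp.prod_add_index' (fun _ => pow_zero _) (fun _ _ _ => pow_add _ _ _)
  rw [Nat.factorization_mul hp.ne_zero ha, h2, hp.factorization, h1]

theorem exists_ab (h2 : Module.finrank ℚ K = 2) : ∃ Ψ : ℕ × ℕ → Ideal (𝓞 K),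
    ∀ I : Ideal (𝓞 K), I ≠ ⊥ → ∃ a b : ℕ, 1 ≤ a ∧ 1 ≤ b ∧ a * b ≤ Ideal.absNorm I ∧
      Ψ (a, b) = I := by
  classical
  choose P₀ P₁ hP using exists_two (K := K) h2
  refine ⟨fun x => psi P₀ x.1 * psi P₁ x.2, ?_⟩
  have key : ∀ F : Multiset (Ideal (𝓞 K)), (∀ P ∈ F, Prime P) →
      ∃ a b : ℕ, 1 ≤ a ∧ 1 ≤ b ∧ a * b ≤ Ideal.absNorm F.prod ∧
        psi P₀ a * psi P₁ b = F.prod := by
    intro F
    induction F using Multiset.induction_on with
    | empty =>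
      intro _
      refine ⟨1, 1, le_rfl, le_rfl, ?_, ?_⟩
      · rw [Multiset.prod_zero, map_one, mul_one]
      · unfold psi
        rw [Nat.factorization_one, Finsupp.prod_zero_index, Finsupp.prod_zero_index,
          Multiset.prod_zero, one_mul]
    | cons P F ih =>
      intro hF
      obtain ⟨a, b, ha, hb, hab, he⟩ := ih fun Q hQ => hF Q (Multiset.mem_cons_of_mem hQ)
      have hPp : Prime P := hF P (Multiset.mem_cons_self _ _)
      have hPp' : P.IsPrime := Ideal.isPrime_of_prime hPp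
      have hP0 : P ≠ ⊥ := hPp.ne_zero
      obtain ⟨p, hp, hpP, hple⟩ := exists_pp P hPp' hP0
      have h3 : p * (a * b) ≤ Ideal.absNorm P * Ideal.absNorm F.prod :=
        Nat.mul_le_mul hple hab
      have hp1 : 1 ≤ p := hp.one_le
      rcases hP p hp P hPp' hP0 hpP with h | h
      · refine ⟨p * a, b, Nat.mul_pos hp1 ha, hb, ?_, ?_⟩
        · rw [Multiset.prod_cons, map_mul, mul_assoc]
          exact h3
        · rw [psi_mul P₀ hp (by omega), ← h, mul_assoc, he, Multiset.prod_cons]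
      · refine ⟨a, p * b, ha, Nat.mul_pos hp1 hb, ?_, ?_⟩
        · rw [Multiset.prod_cons, map_mul, mul_left_comm]
          exact h3
        · rw [psi_mul P₁ hp (by omega), ← h, mul_left_comm, he, Multiset.prod_cons]
  intro I hI
  obtain ⟨a, b, ha, hb, hab, he⟩ := key (UniqueFactorizationMonoid.normalizedFactors I)
    fun P hP => UniqueFactorizationMonoid.prime_of_normalized_factor P hP
  rw [Ideal.prod_normalizedFactors_eq_self hI] at hab he
  exact ⟨a, b, ha, hb, hab, he⟩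

/-- the weights -/
noncomputable def gg (x : ℕ × ℕ) : ℝ := (x.1 : ℝ) ^ (-(3 / 2) : ℝ) * (x.2 : ℝ) ^ (-(3 / 2) : ℝ)

theorem gg_summable : Summable gg := by
  have h1 : Summable fun n : ℕ => (n : ℝ) ^ (-(3 / 2) : ℝ) :=
    Real.summable_nat_rpow.2 (by norm_num)
  exact h1.mul_of_nonneg h1 (fun _ => Real.rpow_nonneg (Nat.cast_nonneg _) _)
    (fun _ => Real.rpow_nonneg (Nat.cast_nonneg _) _)

theorem gg_nonneg (x : ℕ × ℕ) : 0 ≤ gg x :=
  mul_nonneg (Real.rpow_nonneg (Nat.cast_nonneg _) _) (Real.rpow_nonneg (Nat.cast_nonneg _) _)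

theorem zeta_le (h2 : Module.finrank ℚ K = 2) :
    ∑' I : NI K, nm I.1 ^ (-(3 / 2) : ℝ) ≤ ∑' x, gg x := by
  obtain ⟨Ψ, hΨ⟩ := exists_ab (K := K) h2
  choose! a b ha hb hab he using hΨ
  refine Summable.tsum_le_tsum_of_inj (fun I : NI K => (a I.1, b I.1)) ?_ (fun x _ => gg_nonneg x)
    ?_ (summ_nm K (σ := 3 / 2) (by norm_num)) gg_summable
  · intro I J h
    apply Subtype.ext
    rw [← he I.1 I.2, ← he J.1 J.2]
    exact congrArg Ψ h
  · intro I
    have h3 := hab I.1 I.2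
    have h4 : (1 : ℝ) ≤ a I.1 := by exact_mod_cast ha I.1 I.2
    have h5 : (1 : ℝ) ≤ b I.1 := by exact_mod_cast hb I.1 I.2
    have h6 : (a I.1 : ℝ) * b I.1 ≤ nm I.1 := by
      unfold nm
      exact_mod_cast h3
    show nm I.1 ^ (-(3 / 2) : ℝ) ≤ (a I.1 : ℝ) ^ (-(3 / 2) : ℝ) * (b I.1 : ℝ) ^ (-(3 / 2) : ℝ)
    rw [← Real.mul_rpow (by linarith) (by linarith)]
    exact Real.rpow_le_rpow_of_nonpos (by positivity) h6 (by norm_num)

end ideals

theorem pf_H2U (_h1 : Pool.Agent.H33.HH.T_NRM) : T_H2U := by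
  classical
  obtain ⟨W₀, hW₀⟩ : ∃ W₀ : ℝ, W₀ = ∑' x, gg x := ⟨_, rfl⟩
  have hW₀0 : 0 ≤ W₀ := by
    rw [hW₀]
    exact tsum_nonneg gg_nonneg
  refine ⟨1 + 4 * W₀, by linarith, ?_⟩
  intro K _ _ hIQ χ s hs
  have hsum := summ_nm K (σ := 3 / 2) (by norm_num)
  set W : ℝ := ∑' I : NI K, nm I.1 ^ (-(3 / 2) : ℝ) with hW
  have hnn : ∀ I : NI K, 0 ≤ nm I.1 ^ (-(3 / 2) : ℝ) := fun I =>
    Real.rpow_nonneg (Nat.cast_nonneg _) _
  have hW0 : 0 ≤ W := tsum_nonneg hnn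
  have hWW : W ≤ W₀ := by
    rw [hW, hW₀]
    exact zeta_le hIQ.two
  set f : NI K → ℂ := fun I => χ.ψ I.1 * (Ideal.absNorm I.1 : ℂ) ^ (-s) with hf
  have hfn : ∀ I : NI K, ‖f I‖ ≤ nm I.1 ^ (-s.re) := by
    intro I
    have h1 : 0 < nm I.1 := lt_of_lt_of_le one_pos (one_le_nm I.2)
    have h2 : ‖(Ideal.absNorm I.1 : ℂ) ^ (-s)‖ = nm I.1 ^ (-s.re) := by
      rw [← norm_cpow_nm h1]
      unfold nm
      rw [Complex.ofReal_natCast]
    rw [hf]
    show ‖χ.ψ I.1 * (Ideal.absNorm I.1 : ℂ) ^ (-s)‖ ≤ _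
    rw [norm_mul, h2]
    calc ‖χ.ψ I.1‖ * nm I.1 ^ (-s.re) ≤ 1 * nm I.1 ^ (-s.re) :=
          mul_le_mul_of_nonneg_right (norm_psi_le χ _) (Real.rpow_nonneg h1.le _)
      _ = _ := one_mul _
  have hf1 : ∀ I : NI K, ‖f I‖ ≤ nm I.1 ^ (-(3 / 2) : ℝ) := fun I =>
    (hfn I).trans (Real.rpow_le_rpow_of_exponent_le (one_le_nm I.2) (by linarith))
  have hfs : Summable fun I => ‖f I‖ := hsum.of_nonneg_of_le (fun _ => norm_nonneg _) hf1
  have htop : (⊤ : Ideal (𝓞 K)) ≠ ⊥ := top_ne_bot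
  have hf2 : f ⟨⊤, htop⟩ = 1 := by
    rw [hf]
    show χ.ψ ⊤ * (Ideal.absNorm (⊤ : Ideal (𝓞 K)) : ℂ) ^ (-s) = 1
    rw [χ.map_one, Ideal.absNorm_top, Nat.cast_one, Complex.one_cpow, one_mul]
  have hL : Lc χ s = ∑' I, f I := rfl
  constructor
  · rw [hL]
    calc ‖∑' I, f I‖ ≤ ∑' I, ‖f I‖ := norm_tsum_le_tsum_norm hfs
      _ ≤ W := hfs.tsum_le_tsum hf1 hsum
      _ ≤ _ := by linarith
  · rw [hL, Summable.tsum_eq_add_tsum_ite (Summable.of_norm hfs) ⟨⊤, htop⟩, hf2,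
      add_sub_cancel_left]
    have h3 : ∀ I : NI K, ‖(if I = ⟨⊤, htop⟩ then (0 : ℂ) else f I)‖ ≤
        4 * (2 : ℝ) ^ (-s.re) * nm I.1 ^ (-(3 / 2) : ℝ) := by
      intro I
      by_cases hI : I = ⟨⊤, htop⟩
      · rw [if_pos hI, norm_zero]
        have := hnn I
        positivity
      · rw [if_neg hI]
        exact (hfn I).trans (rpow_decay (two_le_nm I.2 fun h => hI (Subtype.ext h)) hs)
    have h4 := hsum.mul_left (4 * (2 : ℝ) ^ (-s.re))
    have h5 : Summable fun I : NI K => ‖(if I = ⟨⊤, htop⟩ then (0 : ℂ) else f I)‖ :=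
      h4.of_nonneg_of_le (fun _ => norm_nonneg _) h3
    calc ‖∑' I : NI K, (if I = ⟨⊤, htop⟩ then (0 : ℂ) else f I)‖
        ≤ ∑' I : NI K, ‖(if I = ⟨⊤, htop⟩ then (0 : ℂ) else f I)‖ :=
          norm_tsum_le_tsum_norm h5
      _ ≤ ∑' I : NI K, 4 * (2 : ℝ) ^ (-s.re) * nm I.1 ^ (-(3 / 2) : ℝ) :=
          h5.tsum_le_tsum h3 h4
      _ = 4 * (2 : ℝ) ^ (-s.re) * W := tsum_mul_left
      _ ≤ _ := by
          have : (0 : ℝ) < 2 ^ (-s.re) := Real.rpow_pos_of_pos two_pos _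
          nlinarith

end Pool.Agent.H1.CZF
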